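import Pool.Agent.K7.H20.AW.DecFin
import Pool.Agent.K7.H20.AW.Main
import Pool.Agent.K7.H20.AW.Fin
import Pool.Agent.K7.H20.AW.DefsDec

set_option autoImplicit false

/-!
# Words with few syllables: only the generators of the word matter
-/

namespace Pool.Agent.U47.AW

open Pool.Agent.Helper741 Pool.Agent.K7.H87.FJ6 Pool.Agent.K7.H20.AW

variable {B : Type*} [Fintype B] [DecidableEq B] {M : CoxeterMatrix B}

/-- the homomorphism between the right-angled groups -/
def raInc {A : Type*} [DecidableEq A] (M : CoxeterMatrix B) (ι : A → B) (hι : Function.Injective ι) :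
    Art (ra (pull M ι hι)) →* Art (ra M) :=
  Sh.lift (fun a => g (ra M) (ι a)) (lift_ok _ fun i j hij h =>
    comm_gen (ra_two (fun h' => hij (hι h')) h)) (fun _ => pow_zero _)

theorem raInc_g {A : Type*} [DecidableEq A] (ι : A → B) (hι : Function.Injective ι) (a : A) :
    raInc M ι hι (g (ra (pull M ι hι)) a) = g (ra M) (ι a) := Sh.lift_gen _ _ _ _

theorem raInc_val {A : Type*} [DecidableEq A] (ι : A → B) (hι : Function.Injective ι)
    (w : List (A × ℤ)) :
    raInc M ι hι (val (ra (pull M ι hι)) w) = val (ra M) (w.map fun p => (ι p.1, p.2)) := by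
  induction w with
  | nil => exact map_one _
  | cons p w ih => rw [val_cons, List.map_cons, val_cons, map_mul, ih, map_zpow, raInc_g]

/-- the main theorem of `Pool.Agent.K7.H20.AW`, with a condition only on the labels of the
generators of the word -/
theorem few_sub {w : List (B × ℤ)}
    (h : ∀ b, ct b w ≤ 2 ∨ (ct b w ≤ 3 ∧ ∀ x, (∃ a ∈ w, a.1 = x) → M x b ≠ 3))
    (hw : val M w = 1) : val (ra M) w = 1 := by
  classical
  let A : Type _ := {b : B // ∃ a ∈ w, a.1 = b}
  have : Fintype A := Fintype.ofFinite A
  let ι : A → B := Subtype.val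
  have hι : Function.Injective ι := Subtype.val_injective
  let w' : List (A × ℤ) := w.attach.map fun a => (⟨a.1.1, ⟨a.1, a.2, rfl⟩⟩, a.1.2)
  have hw' : w'.map (fun p => (ι p.1, p.2)) = w := by
    simp only [w', List.map_map]
    conv_rhs => rw [← List.attach_map_subtype_val w]
    rfl
  have hval : ∀ u : List (A × ℤ), inc M (z0 B) ι hι
      ((u.map fun p => Sh.gen (pull M ι hι) (z0 B ∘ ι) p.1 ^ p.2).prod) =
      val M (u.map fun p => (ι p.1, p.2)) := by
    intro u
    induction u with
    | nil => rw [List.map_nil, List.prod_nil, map_one]; rfl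
    | cons p u ih =>
      rw [List.map_cons, List.prod_cons, map_mul, ih, map_zpow, inc_gen, List.map_cons, val_cons]
  have h1 : val (pull M ι hι) w' = 1 := by
    apply inc_injective (adm0 M) ι hι
    rw [map_one]
    refine (hval w').trans ?_
    rw [hw', hw]
  have hct : ∀ b : A, ct b w' = ct (ι b) w := by
    intro b
    have e : ∀ u : List (A × ℤ), (u.map (fun p => (ι p.1, p.2))).map Prod.fst =
        (u.map Prod.fst).map ι := by
      intro u
      rw [List.map_map, List.map_map]; rfl
    have e3 : ct (ι b) w = ((w'.map (fun p => (ι p.1, p.2))).map Prod.fst).count (ι b) :=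
      (congrArg (fun u : List (B × ℤ) => (u.map Prod.fst).count (ι b)) hw').symm
    rw [e3, e, List.count_map_of_injective _ _ hι]
    have e4 : ∀ (i1 i2 : BEq A) (_ : @LawfulBEq A i1) (_ : @LawfulBEq A i2) (l : List A),
        @List.count A i1 b l = @List.count A i2 b l := by
      intro i1 i2 _ _ l
      rw [lawful_beq_subsingleton i1 i2]
    exact e4 instBEqOfDecidableEq Subtype.instBEq inferInstance inferInstance _
  have hcl : Cl (pull M ι hι) w' := by
    intro b
    rw [hct]
    rcases h (ι b) with h2 | ⟨h2, h3⟩
    · exact Or.inl h2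
    · exact Or.inr ⟨h2, fun x => h3 x.1 x.2⟩
  have h2 := main_thm w'.length w' rfl hcl h1
  have h3 := raInc_val (M := M) ι hι w'
  rw [h2, map_one, hw'] at h3
  exact h3.symm

theorem ra_eq (M : CoxeterMatrix B) : decouple M ∅ = ra M := by
  have h : ∀ i j, (decouple M ∅).M i j = (ra M).M i j := by
    intro i j
    show (if i = j then 1 else if M i j = 2 ∨ (i ∈ (∅ : Finset B) ∧ j ∈ (∅ : Finset B)) then M i j
      else 0) = if i = j then 1 else if M i j = 2 then 2 else 0
    by_cases hij : i = j
    · simp [hij]
    · by_cases h2 : M i j = 2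
      · simp [hij, h2]
      · simp [hij, h2]
  cases hM : decouple M ∅ with
  | mk A a b c =>
    cases hN : ra M with
    | mk A' a' b' c' =>
      have : A = A' := by
        ext i j
        have := h i j
        rw [hM, hN] at this
        exact this
      subst this
      rfl

end Pool.Agent.U47.AW
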